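import Pool.Agent.H.MP_065e13_lc.A

namespace Pool.Agent.Results.MP_065e13_lc.Complete

open Pool.Agent.Lib.CX Pool.Agent.Lib.ER

/-- `a` is the intersection graph of closed balls of positive radii in Euclidean `d`-space -/
def Ball (d : ℕ) (a : Gr) : Prop :=
  ∃ (c : Fin a.n → EuclideanSpace ℝ (Fin d)) (r : Fin a.n → ℝ), (∀ v, 0 < r v) ∧ ∀ u v, u ≠ v →
    (a.G.Adj u v ↔ (Metric.closedBall (c u) (r u) ∩ Metric.closedBall (c v) (r v)).Nonempty)

theorem result (d : ℕ) (hd : 3 ≤ d) :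
    Red (Ball d) ETR ∧ ∀ (α : Type) [Enc α] (A : α → Prop), Red A ETR → Red A (Ball d) := by
  have e : Ball d = H.MP_065e13_lc.BL d := funext fun a => propext ⟨fun ⟨c, r, h, q⟩ =>
    ⟨fun u => (r u, (c u).ofLp), h, fun u v t => (q u v t).trans (H.MP_065e13_lc.inter _ _ (h u) (h v))⟩,
    fun ⟨c, h, q⟩ => ⟨fun u => WithLp.toLp 2 (c u).2, fun u => (c u).1, h, fun u v t =>
      (q u v t).trans (H.MP_065e13_lc.inter (WithLp.toLp 2 (c u).2) (WithLp.toLp 2 (c v).2) (h u) (h v)).symm⟩⟩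
  rw [e]
  obtain ⟨g, hg, h⟩ := H.MP_065e13_lc.hard d (by omega)
  exact ⟨H.MP_065e13_lc.memb d, fun α _ A ⟨f, hf, h'⟩ =>
    ⟨fun a => g (f a), hg.comp hf, fun a => (h' a).trans (h _)⟩⟩

end Pool.Agent.Results.MP_065e13_lc.Complete
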